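import Pool.Agent.H39.TO.Targets

/-!
Row LII of the board `toh_modules` (`MP_397744_co`).
-/

set_option autoImplicit false

namespace Pool.Agent.H65.TOH

open Pool.Agent.H57.CP Pool.Agent.H39.TO

theorem clo_span (a b : V4) (g : Module.End ℝ V4) (h : g ∈ Submonoid.closure {refl a, refl b}) :
    ∀ u : V4, ∃ s t : ℝ, g u = u + s • a + t • b := by
  induction h using Submonoid.closure_induction with
  | mem x hx =>
    intro u
    rcases hx with rfl | rfl
    · refine ⟨2 * mk a u, 0, ?_⟩
      ext i
      simp only [Pi.add_apply, Pi.smul_apply, smul_eq_mul, zero_mul, add_zero]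
      rfl
    · refine ⟨0, 2 * mk b u, ?_⟩
      ext i
      simp only [Pi.add_apply, Pi.smul_apply, smul_eq_mul, zero_mul, add_zero]
      rfl
  | one => exact fun u => ⟨0, 0, by simp⟩
  | mul x y _ _ hx hy =>
    intro u
    obtain ⟨s, t, h1⟩ := hy u
    obtain ⟨s', t', h2⟩ := hx (y u)
    refine ⟨s + s', t + t', ?_⟩
    rw [Module.End.mul_apply, h2, h1]
    module

theorem pf_LII : T_LII := by
  intro x y z g hx hy hz hli hmk h1 h2
  have hstep : ∀ u : V4, g u = u ∨ g u = refl y u := by
    intro u
    obtain ⟨s, t, e1⟩ := clo_span x y g h1 u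
    obtain ⟨s', t', e2⟩ := clo_span y z g h2 u
    have h0 : s • x + (t - s') • y + (-t') • z = 0 := by
      have : u + s • x + t • y = u + s' • y + t' • z := e1.symm.trans e2
      have h3 : s • x + t • y = s' • y + t' • z := by
        have := congrArg (fun w => w - u) this
        simpa [add_assoc] using this
      have h4 : s • x + (t - s') • y + (-t') • z = (s • x + t • y) - (s' • y + t' • z) := by
        module
      rw [h4, h3, sub_self]
    have h3 := Fintype.linearIndependent_iff.1 hli ![s, t - s', -t'] (by
      simpa [Fin.sum_univ_three] using h0)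
    have hs : s = 0 := by simpa using h3 0
    rw [hs, zero_smul, add_zero] at e1
    have h4 := hmk u u
    have h5 : mk (g u) (g u) = mk u u + 2 * t * mk y u + t ^ 2 * mk y y := by
      rw [e1]
      simp only [mk, Pi.add_apply, Pi.smul_apply, smul_eq_mul]
      ring
    rw [h5, hy] at h4
    have h6 : t * (2 * mk y u - t) = 0 := by nlinarith
    rcases mul_eq_zero.1 h6 with h7 | h7
    · left
      rw [e1, h7, zero_smul, add_zero]
    · right
      have h8 : t = 2 * mk y u := by linarith
      rw [e1, h8]
      ext i
      simp only [Pi.add_apply, Pi.smul_apply, smul_eq_mul]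
      rfl
  by_contra hcon
  push Not at hcon
  obtain ⟨hg1, hg2⟩ := hcon
  obtain ⟨u, hu⟩ : ∃ u, g u ≠ u := by
    by_contra hh
    push Not at hh
    exact hg1 (LinearMap.ext hh)
  obtain ⟨w, hw⟩ : ∃ w, g w ≠ refl y w := by
    by_contra hh
    push Not at hh
    exact hg2 (LinearMap.ext hh)
  have hu' := (hstep u).resolve_left hu
  have hw' := (hstep w).resolve_right hw
  rcases hstep (u + w) with h | h
  · rw [map_add, hw'] at h
    exact hu (add_right_cancel h)
  · rw [map_add, map_add, hu'] at h
    exact hw (add_left_cancel h)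

end Pool.Agent.H65.TOH
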